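import Pool.Agent.MP_ecfd11_lc.Defs2

/-!
Subtlety for sequences in HOD.
-/

namespace Pool.Agent.MP_ecfd11_lc.H20

universe u

open ZFSet

/-- The successor cardinal of the cardinality of `x`. -/
noncomputable def succCard (x : ZFSet.{u}) : ZFSet.{u} := (Order.succ x.card).ord.toZFSet

/-- For every club `c` in `l` and every sequence `s` in HOD of subsets of `l` there are
`a < b` in `c`, of cofinality `ω`, whose sets agree below `a`. -/
def Subtle (l : ZFSet.{u}) : Prop :=
  ∀ c, Club l c → ∀ s, HOD Set.univ s → IsFunc l (powerset l) s →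
    ∃ a ∈ c, ∃ b ∈ c, a ∈ b ∧ CofOmega Set.univ a ∧ CofOmega Set.univ b ∧
      ∀ A B, pair a A ∈ s → pair b B ∈ s → A ∩ a = B ∩ a

end Pool.Agent.MP_ecfd11_lc.H20
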