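import Pool.Agent.MP_ecfd11_lc.H20.GH2
import Pool.Agent.MP_ecfd11_lc.H20.Defs2

/-!
Scales and canonical functions at a singular strong limit cardinal.
-/

set_option synthInstance.maxSize 4000

namespace Pool.Agent.MP_ecfd11_lc.H20

universe u

open ZFSet Function Classical Cardinal

variable {g k T : ZFSet.{u}}

theorem succCard_ord (a : ZFSet.{u}) : (succCard a).IsOrdinal := isOrdinal_toZFSet _

theorem mem_succCard {a x : ZFSet.{u}} : x ∈ succCard a ↔ x.IsOrdinal ∧ card x ≤ card a :=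
  ⟨fun h => ⟨(succCard_ord a).mem h,
    Order.lt_succ_iff.1 ((mem_ord_iff ((succCard_ord a).mem h)).1 h)⟩,
    fun h => (mem_ord_iff h.1).2 (Order.lt_succ_iff.2 h.2)⟩

theorem card_succCard (a : ZFSet.{u}) : card (succCard a) = Order.succ (card a) := card_ord' _

instance Tm.succCard (t : (ℕ → ZFSet.{u}) → ZFSet.{u}) [Tm Set.univ On t] :
    Tm Set.univ On (fun v => succCard (t v)) :=
  Tm.of_mem _ (fun _ _ => trivial) (h := Df.of (fun v => (v 0).IsOrdinal ∧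
    card (v 0) ≤ card (t fun n => v (n + 1))) (by infer_instance) fun _ _ => mem_succCard.symm)

theorem regular_succCard {a : ZFSet.{u}} (h : ℵ₀ ≤ card a) : Regular Set.univ (succCard a) :=
  regular_ord (isRegular_succ h) (h.trans_lt (Order.lt_succ _))

theorem Sing.mem_of_card_lt (hs : Sing g k) {a : ZFSet.{u}} (ha : a.IsOrdinal)
    (h : card a < card k) : a ∈ k :=
  (ha.mem_or_subset hs.unc.1).resolve_right fun h' => (card_mono h').not_gt h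

theorem Sing.succCard_mem (hs : Sing g k) {a : ZFSet.{u}} (ha : a ∈ k) : succCard a ∈ k :=
  hs.mem_of_card_lt (succCard_ord a) (by
    rw [card_succCard]
    exact (Order.succ_le_of_lt (cantor _)).trans_lt (hs.sl a ha))

theorem Sing.pow_lt (hs : Sing g k) {m : Cardinal.{u}} (h : m < card k) : 2 ^ m < card k := by
  have := hs.sl _ (hs.mem_of_card_lt (isOrdinal_toZFSet m.ord) (by rwa [card_ord']))
  rwa [card_ord'] at this

/-- `p` holds on a tail of `T`. -/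
def Ev (k T : ZFSet.{u}) (p : ZFSet.{u} → Prop) : Prop := ∃ e ∈ k, ∀ x ∈ T, e ∈ x → p x

theorem Ev.and {p q : ZFSet.{u} → Prop} (hk : k.IsOrdinal) (hT : T ⊆ k) (h1 : Ev k T p)
    (h2 : Ev k T q) : Ev k T fun x => p x ∧ q x := by
  obtain ⟨a, ha, h1⟩ := h1
  obtain ⟨b, hb, h2⟩ := h2
  obtain ⟨c, hc, h3, h4⟩ := exists_bound2 hk ha hb
  exact ⟨c, hc, fun x hx h =>
    ⟨h1 x hx ((hk.mem ha).mem_of_subset_of_mem (hk.mem (hT hx)) h3 h),
      h2 x hx ((hk.mem hb).mem_of_subset_of_mem (hk.mem (hT hx)) h4 h)⟩⟩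

theorem Ev.mono {p q : ZFSet.{u} → Prop} (h1 : Ev k T p) (h : ∀ x ∈ T, p x → q x) : Ev k T q :=
  h1.imp fun _ h1 => ⟨h1.1, fun x hx h2 => h x hx (h1.2 x hx h2)⟩

theorem Ev.all {p : ZFSet.{u} → ZFSet.{u} → Prop} (hk : Unc k) (hT : T ⊆ k)
    (h : ∀ n ∈ om, Ev k T (p n)) : Ev k T fun x => ∀ n ∈ om, p n x := by
  choose! e e1 e2 using h
  obtain ⟨c, c1, c2⟩ := hk.2 (img e om) (fun y hy => by
    obtain ⟨n, hn, rfl⟩ := mem_img.1 hy; exact e1 n hn) (card_img_le _ _)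
  exact ⟨c, c1, fun x hx h n hn => e2 n hn x hx
    ((hk.1.mem (hT hx)).mem_trans (c2 _ (mem_img.2 ⟨n, hn, rfl⟩)) h)⟩

/-- The nonstationary ideal restricted to `T`. -/
noncomputable def ns (k T : ZFSet.{u}) : ZFSet.{u} := (powerset k).sep fun A => Null k (A ∩ T)

theorem Ev.mem {p : ZFSet.{u} → Prop} (hk : Unc k) (h : Ev k T p) {A : ZFSet.{u}} (hA : A ⊆ k)
    (h' : ∀ x ∈ A, ¬ p x) : A ∈ ns k T := by
  obtain ⟨e, e1, e2⟩ := h
  refine mem_sep.2 ⟨mem_powerset.2 hA, (hk.null_bdd e1).mono fun x hx hx' => ?_⟩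
  exact mem_insert_iff.2 ((hk.1.mem hx').eq_or_mem_of_subset (hk.1.mem e1)
    (((hk.1.mem e1).notMem_iff_subset (hk.1.mem hx')).1 fun h1 =>
      h' x (mem_inter.1 hx).1 (e2 x (mem_inter.1 hx).2 h1)))

theorem exists_scale (hs : Sing g k) (hT : T ⊆ k) (hT' : ∀ x ∈ T, om ⊆ x)
    (E : ZFSet.{u} → ZFSet.{u}) (hE : ∀ x ∈ T, Club (succCard x) (E x)) :
    ∃ H : ZFSet.{u} → ZFSet.{u}, (∀ a, IsFunc k k (H a)) ∧
      (∀ a, ∀ x ∈ T, app (H a) x ∈ E x) ∧ (∀ a, ∀ x ∈ k, x ∉ T → app (H a) x = ∅) ∧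
      ∀ a ∈ succCard k, ∀ b ∈ a, Ev k T fun x => app (H b) x ∈ app (H a) x := by
  have h1 : ∀ x Y, ∃ y, y ∈ k ∧ (x ∉ T → y = ∅) ∧ (x ∈ T → y ∈ E x ∧
      (card Y ≤ card x → ∀ z ∈ Y, z ∈ succCard x → z ∈ y)) := fun x Y => by
    by_cases hx : x ∈ T
    swap
    · exact ⟨∅, hs.unc.empty_mem, fun _ => rfl, fun h => absurd h hx⟩
    have hr := regular_succCard ((om_subset_iff (hs.unc.1.mem (hT hx))).1 (hT' x hx))
    have h1 : ∃ c ∈ succCard x, card Y ≤ card x → ∀ z ∈ Y, z ∈ succCard x → z ∈ c := by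
      by_cases hY : card Y ≤ card x
      · obtain ⟨c, c1, c2⟩ := hr.bddV (x := Y ∩ succCard x) ((card_mono fun z hz =>
          (mem_inter.1 hz).1).trans_lt (hY.trans_lt (by
            rw [card_succCard]; exact Order.lt_succ _))) (fun z => z) fun z hz => (mem_inter.1 hz).2
        exact ⟨c, c1, fun _ z h1 h2 => c2 z (mem_inter.2 ⟨h1, h2⟩)⟩
      · exact ⟨∅, hr.empty_mem, fun h => absurd h hY⟩
    obtain ⟨c, c1, c2⟩ := h1
    obtain ⟨y, y1, y2⟩ := (hE x hx).2.1 c c1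
    exact ⟨y, hs.unc.1.mem_trans ((hE x hx).1 y1) (hs.succCard_mem (hT hx)), fun h => absurd hx h,
      fun _ => ⟨y1, fun hY z z1 z2 => (hr.1.mem ((hE x hx).1 y1)).mem_trans (c2 hY z z1 z2) y2⟩⟩
  choose P p1 p2 p3 using h1
  have h2 : ∀ a ∈ succCard k, ∃ F : ZFSet.{u} → ZFSet.{u}, ∀ y ∈ a, ∃ x ∈ k, F x = y :=
    fun a ha => exists_surj_of_card_le (mem_succCard.1 ha).2
  choose! e he using h2
  obtain ⟨H, hH⟩ := exists_rec (fun x => x) mem_wf fun a s =>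
    gr (fun x => P x (img (fun y => app (app s (e a y)) x) x)) k
  have h3 : ∀ a, ∀ x ∈ k, app (H a) x = P x (img (fun y => app (app (gr H a) (e a y)) x) x) :=
    fun a x hx => by rw [hH a, app_gr hx]
  have h4 : ∀ a, ∀ x ∈ T, app (H a) x ∈ E x := fun a x hx => by
    rw [h3 a x (hT hx)]; exact (p3 _ _ hx).1
  refine ⟨H, fun a => by rw [hH a]; exact isFunc_gr fun x _ => p1 _ _, h4,
    fun a x hx hx' => by rw [h3 a x hx]; exact p2 _ _ hx', fun a ha b hb => ?_⟩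
  obtain ⟨y, hy, rfl⟩ := he a ha b hb
  refine ⟨y, hy, fun x hx h => ?_⟩
  dsimp only
  rw [h3 a x (hT hx)]
  exact (p3 _ _ hx).2 (card_img_le _ _) _ (mem_img.2 ⟨y, h, by rw [app_gr hb]⟩)
    ((hE x hx).1 (h4 _ x hx))

theorem exists_canonical (hs : Sing g k) (hT : T ⊆ k) (hT' : ∀ x ∈ T, om ⊆ x)
    (E : ZFSet.{u} → ZFSet.{u}) (hE : ∀ x ∈ T, Club (succCard x) (E x)) :
    ∃ (D : ZFSet.{u}) (h : ZFSet.{u} → ZFSet.{u}), Club (succCard k) D ∧
      ∀ a ∈ D, CofOmega Set.univ a → IsFunc k k (h a) ∧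
        (∀ I, Good g k I → ns k T ⊆ I → rk g k I (h a) = a) ∧
        (Ev k T fun x => app (h a) x ∈ E x ∧ CofOmega Set.univ (app (h a) x)) ∧
        ∀ b ∈ D, CofOmega Set.univ b → a ∈ b → Ev k T fun x => app (h a) x ∈ app (h b) x := by
  obtain ⟨H, h1, h2, h3, h4⟩ := exists_scale hs hT hT' E hE
  have hk := hs.unc
  have hl := regular_succCard (hs.inf.trans (hs.card_lt hs.mem).le)
  have hr : ∀ x ∈ T, Regular Set.univ (succCard x) := fun x hx =>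
    regular_succCard ((om_subset_iff (hk.1.mem (hT hx))).1 (hT' x hx))
  have h5 : ∀ {I f f'}, Good g k I → ns k T ⊆ I → IsFunc k k f →
      (Ev k T fun x => app f x ∈ app f' x) → f ∈ below g k I f' := fun hI hI' hf h =>
    mem_below.2 ⟨hf, hI, hI' (h.mem hk sep_subset fun x hx => (mem_sep.1 hx).2)⟩
  have h6 : ∀ I, Good g k I → ns k T ⊆ I → ∀ a, a ∈ succCard k → a ⊆ rk g k I (H a) :=
    fun I hI hI' a => by
      induction a using ZFSet.inductionOn with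
      | _ a ih =>
        intro ha b hb
        exact ((hl.1.mem ha).mem hb).mem_of_subset_of_mem (rk_ord hs _ _)
          (ih b hb (hl.1.mem_trans hb ha)) (rk_lt hs (h5 hI hI' (h1 b) (h4 a ha b hb)))
  have h7 : ∀ b, ∃ c ∈ succCard k, ∀ I ∈ ideals g k, rk g k I (H b) ∈ c := fun b =>
    hl.bddV ((card_ideals hs).trans_lt ((hs.pow_lt (hs.pow_lt (hs.card_lt hs.mem))).trans (by
      rw [card_succCard]; exact Order.lt_succ _))) _ fun I hI => mem_succCard.2 ⟨rk_ord hs _ _,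
        card_rk_le hs (mem_ideals.1 hI) fun x hx => ⟨hk.1.mem ((h1 b).app_mem' hx), fun _ => by
          by_cases e : x ∈ T
          · exact (mem_succCard.1 ((hE x e).1 (h2 b x e))).2
          · rw [h3 b x hx e, card_empty]; exact zero_le⟩⟩
  choose N n1 n2 using h7
  have h8 : ∀ a, CofOmega Set.univ a → ∃ F : ZFSet.{u} → ZFSet.{u}, (∀ n ∈ om, F n ∈ a) ∧
      ∀ b ∈ a, ∃ n ∈ om, b ∈ F n := fun a ⟨_, f, _, f1, f2⟩ =>
    ⟨app f, fun n hn => f1.app_mem' hn, fun b hb => by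
      obtain ⟨n, y, y1, y2⟩ := f2 b hb
      exact ⟨n, (pair_mem_prod.1 (f1.1 y1)).1, (f1.app_eq y1).symm ▸ y2⟩⟩
  choose! F f1 f2 using h8
  let h : ZFSet.{u} → ZFSet.{u} := fun a =>
    gr (fun x => ⋃₀ img (fun n => app (H (F a n)) x) om) k
  have q0 : ∀ a, ∀ x ∈ k, ∀ z, z ∈ app (h a) x ↔ ∃ n ∈ om, z ∈ app (H (F a n)) x :=
    fun a x hx z => by simp only [h, app_gr hx]; simp
  have q1 : ∀ a, IsFunc k k (h a) := fun a => isFunc_gr fun x hx => by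
    have q : ∀ y ∈ img (fun n => app (H (F a n)) x) om, y ∈ k := fun y hy => by
      obtain ⟨n, -, rfl⟩ := mem_img.1 hy; exact (h1 _).app_mem' hx
    obtain ⟨c, c1, c2⟩ := hk.2 _ q (card_img_le _ _)
    refine (isOrdinal_sUnion fun y hy => hk.1.mem (q y hy)).mem_of_subset_of_mem hk.1
      (fun z hz => ?_) c1
    obtain ⟨y, hy, hz⟩ := mem_sUnion.1 hz
    exact (hk.1.mem c1).mem_trans hz (c2 y hy)
  have q2 : ∀ a ∈ succCard k, CofOmega Set.univ a → ∀ b ∈ a,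
      Ev k T fun x => app (H b) x ∈ app (h a) x := fun a ha ha' b hb => by
    obtain ⟨n, hn, q2⟩ := f2 a ha' b hb
    exact (h4 _ (hl.1.mem_trans (f1 a ha' n hn) ha) b q2).mono fun x hx q3 =>
      (q0 a x (hT hx) _).2 ⟨n, hn, q3⟩
  refine ⟨(succCard k).sep fun a => ∀ b ∈ a, N b ∈ a, h, ⟨sep_subset, fun b hb => ?_,
    fun a ha _ h => mem_sep.2 ⟨ha, fun b hb => ?_⟩⟩, fun a ha ha' => ⟨q1 a, fun I hI hI' => ?_,
      ?_, fun b hb hb' hab => ?_⟩⟩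
  · obtain ⟨a, ha, h5, h6⟩ := hl.exists_closed N (fun b _ => n1 b) hb
    exact ⟨a, mem_sep.2 ⟨ha, h6⟩, h5⟩
  · obtain ⟨z, z1, z2, z3⟩ := h b hb
    exact (hl.1.mem ha).mem_trans ((mem_sep.1 z1).2 b z2) z3
  · obtain ⟨a1, a2⟩ := mem_sep.1 ha
    refine subset_antisymm (fun z hz => ?_) fun b hb => (ha'.1.mem hb).mem_of_subset_of_mem
      (rk_ord hs _ _) (h6 I hI hI' b (hl.1.mem_trans hb a1))
        (rk_lt hs (h5 hI hI' (h1 b) (q2 a a1 ha' b hb)))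
    obtain ⟨f, a3, rfl⟩ := exists_rk hs (fun x hx => hk.1.mem ((q1 a).app_mem' hx)) hz
    obtain ⟨a4, -, a5⟩ := mem_below.1 a3
    have a6 : ∃ n : ℕ, (k.sep fun x => app f x ∈ app (H (F a (nat n))) x) ∉ I := by
      by_contra a6
      push Not at a6
      refine hI.2.2.2.2 (hI.union hs a5 (hI.cUnion hs (A := k.sep fun x => app f x ∈ app (h a) x)
        sep_subset _ a6 fun x hx => ?_) subset_rfl fun x hx a7 =>
          mem_sep.2 ⟨hx, not_not.1 fun a8 => a7 (mem_sep.2 ⟨hx, a8⟩)⟩)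
      obtain ⟨n, hn, a7⟩ := (q0 a x (mem_sep.1 hx).1 _).1 (mem_sep.1 hx).2
      obtain ⟨o, ho, rfl⟩ := Ordinal.mem_toZFSet_iff.1 hn
      obtain ⟨n, rfl⟩ := Ordinal.lt_omega0.1 ho
      exact ⟨n, mem_sep.2 ⟨(mem_sep.1 hx).1, a7⟩⟩
    obtain ⟨n, a6⟩ := a6
    have a7 := hI.rs sep_subset a6
    have a8 := rk_lt hs (mem_below.2 ⟨a4, a7, mem_rs.2 ⟨sep_subset, hI.empty hs fun x hx =>
      (mem_sep.1 (mem_inter.1 hx).1).2 (mem_sep.1 (mem_inter.1 hx).2).2⟩⟩ :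
        f ∈ below g k _ (H (F a (nat n))))
    have a9 := a2 _ (f1 a ha' (nat n)
      (Ordinal.toZFSet_mem_toZFSet_iff.2 (Ordinal.natCast_lt_omega0 n)))
    exact ha'.1.mem_trans ((rk_ord hs _ _).mem_of_subset_of_mem (rk_ord hs _ _)
      (rk_mono' hs a7 hI.subset_rs f) a8) (ha'.1.mem_trans (n2 _ _ (mem_ideals.2 a7)) a9)
  · refine (Ev.all hk hT fun n hn => q2 a (mem_sep.1 ha).1 ha' _ (f1 a ha' n hn)).mono
      fun x hx a1 => ?_
    have a2 := hk.1.mem ((q1 a).app_mem' (hT hx))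
    have a3 : Cof Set.univ om (app (h a) x) := cof_om_of_fun a2 (fun n => app (H (F a n)) x) a1
      fun b hb => (q0 a x (hT hx) b).1 hb
    refine ⟨(hE x hx).2.2 _ ?_ ⟨_, a1 ∅ empty_mem_om⟩ fun b hb => ?_, a3.1, a3.2.1⟩
    · obtain ⟨c, c1, c2⟩ := (hr x hx).bddV ((hr x hx).card_lt (hr x hx).2.1)
        (fun n => app (H (F a n)) x) fun n _ => (hE x hx).1 (h2 _ x hx)
      refine a2.mem_of_subset_of_mem (hr x hx).1 (fun z hz => ?_) c1
      obtain ⟨n, hn, hz⟩ := (q0 a x (hT hx) z).1 hz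
      exact ((hr x hx).1.mem c1).mem_trans hz (c2 n hn)
    · obtain ⟨n, hn, hb⟩ := (q0 a x (hT hx) b).1 hb
      exact ⟨_, h2 _ x hx, hb, a1 n hn⟩
  · refine ((Ev.all hk hT fun n hn => h4 a (mem_sep.1 ha).1 _ (f1 a ha' n hn)).and hk.1 hT
      (q2 b (mem_sep.1 hb).1 hb' a hab)).mono fun x hx ⟨a1, a2⟩ => ?_
    refine (hk.1.mem ((q1 a).app_mem' (hT hx))).mem_of_subset_of_mem
      (hk.1.mem ((q1 b).app_mem' (hT hx))) (fun z hz => ?_) a2
    obtain ⟨n, hn, hz⟩ := (q0 a x (hT hx) z).1 hz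
    exact (hk.1.mem ((h1 a).app_mem' (hT hx))).mem_trans hz (a1 n hn)

end Pool.Agent.MP_ecfd11_lc.H20
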