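import Pool.Agent.MP_ecfd11_lc.Defs

/-!
Strong compactness, normal measures of HOD and the Mitchell order of HOD.
-/

namespace Pool.Agent.MP_ecfd11_lc.H20

universe u

open ZFSet

/-- `d` is `l`-strongly compact: `d` is an uncountable regular cardinal and there is a fine
`d`-complete ultrafilter on the set of subsets of `l` of size less than `d`. -/
def StronglyCompact (d l : ZFSet.{u}) : Prop :=
  Regular Set.univ d ∧ ∃ U : Ultrafilter ZFSet.{u},
    CardinalInterFilter (U : Filter ZFSet.{u}) (Cardinal.lift.{u + 1} d.card) ∧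
    {s | s ⊆ l ∧ s.card < d.card} ∈ U ∧ ∀ a ∈ l, {s | a ∈ s} ∈ U

/-- HOD satisfies: `U` is a normal measure on `l`, i.e. a nonprincipal `l`-complete normal
ultrafilter on the uncountable ordinal `l`. -/
structure NormalMeasure (l U : ZFSet.{u}) : Prop where
  ord : l.IsOrdinal
  omega : Ordinal.omega0.toZFSet ∈ l
  hod : HOD Set.univ U
  sub : ∀ X ∈ U, X ⊆ l
  up : ∀ X ∈ U, ∀ Y, HOD Set.univ Y → X ⊆ Y → Y ⊆ l → Y ∈ U
  ultra : ∀ X, HOD Set.univ X → X ⊆ l → (X ∈ U ↔ l \ X ∉ U)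
  nonprincipal : ∀ x, ({x} : ZFSet.{u}) ∉ U
  complete : ∀ a ∈ l, ∀ f, HOD Set.univ f → IsFunc a U f →
    (l.sep fun x => ∀ i X, pair i X ∈ f → x ∈ X) ∈ U
  normal : ∀ f, HOD Set.univ f → IsFunc l l f → (l.sep fun x => ∃ y ∈ x, pair x y ∈ f) ∈ U →
    ∃ y, (l.sep fun x => pair x y ∈ f) ∈ U

/-- HOD satisfies: `U` is below `W` in the Mitchell order on `l`, i.e. `U` is represented in the
ultrapower by `W` by a function `g` whose value at almost every `b` is a normal measure on `b`. -/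
def Mitchell (l U W : ZFSet.{u}) : Prop :=
  ∃ g, HOD Set.univ g ∧ (∃ r, IsFunc l r g) ∧
    (l.sep fun b => ∃ m, pair b m ∈ g ∧ NormalMeasure b m) ∈ W ∧
    ∀ X, HOD Set.univ X → X ⊆ l →
      (X ∈ U ↔ (l.sep fun b => ∃ m, pair b m ∈ g ∧ X ∩ b ∈ m) ∈ W)

end Pool.Agent.MP_ecfd11_lc.H20
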