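import Pool.Agent.MP_ecfd11_lc.H20.Null

/-!
Normal ideals on a singular cardinal and Galvin-Hajnal ranks.
-/

set_option synthInstance.maxSize 4000

namespace Pool.Agent.MP_ecfd11_lc.H20

universe u

open ZFSet Function Classical Cardinal

/-- `v` is regressive almost everywhere on `A`, with few values below each ordinal. -/
def Reg (g k A v : ZFSet.{u}) : Prop :=
  Null k (A.sep fun x => app v x ∉ x) ∧
    ∀ e, e ∈ k → ¬ card g ≤ card (img (fun x => app v x) A ∩ e)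

/-- Proper normal ideals on `k`. -/
def Good (g k I : ZFSet.{u}) : Prop :=
  (∀ A, A ∈ I → A ⊆ k) ∧ (∀ A, A ∈ I → ∀ B, B ⊆ A → B ∈ I) ∧
    (∀ A, A ⊆ k → Null k A → A ∈ I) ∧
    (∀ A, A ⊆ k → ∀ v, Reg g k A v → (∀ y, (A.sep fun x => app v x = y) ∈ I) → A ∈ I) ∧ k ∉ I

/-- Restriction of an ideal. -/
noncomputable def rs (k I A : ZFSet.{u}) : ZFSet.{u} := (powerset k).sep fun X => X ∩ A ∈ I

/-- The functions below `h` modulo `I`. -/
noncomputable def below (g k I h : ZFSet.{u}) : ZFSet.{u} :=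
  (powerset (prod k k)).sep fun f => IsFunc k k f ∧ Good g k I ∧
    (k.sep fun x => app f x ∉ app h x) ∈ I

section
variable (r s t w : (ℕ → ZFSet.{u}) → ZFSet.{u}) [Tm Set.univ On r] [Tm Set.univ On s]
  [Tm Set.univ On t] [Tm Set.univ On w]

instance Df.reg : Df Set.univ On (fun v => Reg (r v) (s v) (t v) (w v)) := by
  unfold Reg; infer_instance

instance Df.good : Df Set.univ On (fun v => Good (r v) (s v) (t v)) := by
  unfold Good; infer_instance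

instance Tm.rs : Tm Set.univ On (fun v => rs (r v) (s v) (t v)) := by
  unfold H20.rs; infer_instance

instance Tm.below : Tm Set.univ On (fun v => below (r v) (s v) (t v) (w v)) := by
  unfold H20.below; infer_instance

end

variable {g k I I' A B f h : ZFSet.{u}}

theorem mem_rs {X : ZFSet.{u}} : X ∈ rs k I A ↔ X ⊆ k ∧ X ∩ A ∈ I := by
  rw [rs, mem_sep, mem_powerset]

theorem mem_below : f ∈ below g k I h ↔ IsFunc k k f ∧ Good g k I ∧
    (k.sep fun x => app f x ∉ app h x) ∈ I := by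
  rw [below, mem_sep, mem_powerset]
  exact and_iff_right_of_imp fun h => h.1.1

theorem Reg.mono {v : ZFSet.{u}} (h : Reg g k A v) (h' : B ⊆ A) : Reg g k B v :=
  ⟨h.1.mono fun _ hx _ => mem_sep.2 ⟨h' (mem_sep.1 hx).1, (mem_sep.1 hx).2⟩,
    fun e he h1 => h.2 e he (h1.trans (card_mono fun y hy => by
      obtain ⟨x, hx, rfl⟩ := mem_img.1 (mem_inter.1 hy).1
      exact mem_inter.2 ⟨mem_img.2 ⟨x, h' hx, rfl⟩, (mem_inter.1 hy).2⟩))⟩

theorem Good.down (h : Good g k I) (hA : A ∈ I) (h' : ∀ x ∈ B, x ∈ A) : B ∈ I :=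
  h.2.1 A hA B h'

theorem Good.fn (h : Good g k I) (hA : A ⊆ k) (F : ZFSet.{u} → ZFSet.{u})
    (h1 : Null k (A.sep fun x => F x ∉ x)) (h2 : ∀ e ∈ k, card (img F A ∩ e) < card g)
    (h3 : ∀ y, (A.sep fun x => F x = y) ∈ I) : A ∈ I := by
  refine h.2.2.2.1 A hA (gr F A) ⟨h1.mono fun x hx _ => ?_, fun e he => ?_⟩ fun y => ?_
  · obtain ⟨x1, x2⟩ := mem_sep.1 hx
    rw [app_gr x1] at x2
    exact mem_sep.2 ⟨x1, x2⟩
  · rw [img_congr (G := F) fun x hx => app_gr hx]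
    exact not_le.2 (h2 e he)
  · refine h.down (h3 y) fun x hx => ?_
    obtain ⟨x1, x2⟩ := mem_sep.1 hx
    rw [app_gr x1] at x2
    exact mem_sep.2 ⟨x1, x2⟩

/-- The standing hypotheses. -/
structure Sing (g k : ZFSet.{u}) : Prop where
  unc : Unc k
  cnt : card om < card g
  bdd : ∀ y, y ⊆ k → card y < card g → ∃ c ∈ k, ∀ z ∈ y, z ∈ c
  cof : ∃ X, X ⊆ k ∧ card X ≤ card g ∧ (∀ b ∈ k, ∃ x ∈ X, b ∈ x) ∧
    ∀ e ∈ k, card (X ∩ e) < card g
  mem : g ∈ k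
  sl : ∀ a ∈ k, 2 ^ card a < card k

theorem Good.cUnion (hs : Sing g k) (h : Good g k I) (hA : A ⊆ k) (T : ℕ → ZFSet.{u})
    (h1 : ∀ n, T n ∈ I) (h2 : ∀ x ∈ A, ∃ n, x ∈ T n) : A ∈ I := by
  choose! N hN using h2
  have h0 : ∀ n, nat.{u} n ∈ om := fun n =>
    Ordinal.toZFSet_mem_toZFSet_iff.2 (Ordinal.natCast_lt_omega0 n)
  refine h.fn hA (fun x => nat (N x)) ((hs.unc.null_bdd hs.unc.omega_mem).mono fun x hx hx' => ?_)
    (fun e _ => lt_of_le_of_lt (card_mono fun y hy => ?_) hs.cnt) fun y => ?_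
  · by_contra h3
    have ho := isOrdinal_toZFSet Ordinal.omega0.{u}
    rcases (hs.unc.1.mem hx').mem_trichotomous ho with h4 | h4 | h4
    exacts [h3 (mem_insert_of_mem _ h4), h3 (h4 ▸ mem_insert _ _),
      (mem_sep.1 hx).2 ((hs.unc.1.mem hx').mem_trans (h0 _) h4)]
  · obtain ⟨x, -, rfl⟩ := mem_img.1 (mem_inter.1 hy).1
    exact h0 _
  · by_cases e : ∃ n, y = nat n
    · obtain ⟨n, rfl⟩ := e
      exact h.down (h1 n) fun x hx => nat_inj.1 (mem_sep.1 hx).2 ▸ hN x (mem_sep.1 hx).1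
    · exact h.down (h1 0) fun x hx => absurd ⟨_, (mem_sep.1 hx).2.symm⟩ e

theorem Good.union (hs : Sing g k) (h : Good g k I) (hA : A ∈ I) (hB : B ∈ I) {X : ZFSet.{u}}
    (hX : X ⊆ k) (h2 : ∀ x ∈ X, x ∉ A → x ∈ B) : X ∈ I :=
  h.cUnion hs hX (fun n => if n = 0 then A else B) (fun n => by split_ifs <;> assumption)
    fun x hx => by
      by_cases e : x ∈ A
      exacts [⟨0, e⟩, ⟨1, h2 x hx e⟩]

theorem Good.empty (hs : Sing g k) (h : Good g k I) {X : ZFSet.{u}} (h2 : ∀ x, x ∉ X) : X ∈ I :=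
  h.2.2.1 X (fun x hx => absurd hx (h2 x)) (hs.unc.null_empty.mono fun x hx _ => absurd hx (h2 x))

theorem Good.rs (h : Good g k I) (hA : A ⊆ k) (hA' : A ∉ I) : Good g k (rs k I A) := by
  refine ⟨fun X hX => (mem_rs.1 hX).1, fun X hX Y hY => mem_rs.2 ⟨hY.trans (mem_rs.1 hX).1,
    h.down (mem_rs.1 hX).2 fun x hx => mem_inter.2 ⟨hY (mem_inter.1 hx).1, (mem_inter.1 hx).2⟩⟩,
    fun X hX h1 => mem_rs.2 ⟨hX, h.down (h.2.2.1 X hX h1) fun x hx => (mem_inter.1 hx).1⟩,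
    fun X hX v h1 h2 => mem_rs.2 ⟨hX, h.2.2.2.1 _ (fun x hx => hA (mem_inter.1 hx).2) v
      (h1.mono fun x hx => (mem_inter.1 hx).1) fun y => h.down (mem_rs.1 (h2 y)).2 fun x hx => ?_⟩,
    fun h1 => hA' (h.down (mem_rs.1 h1).2 fun x hx => mem_inter.2 ⟨hA hx, hx⟩)⟩
  obtain ⟨x1, x2⟩ := mem_sep.1 hx
  exact mem_inter.2 ⟨mem_sep.2 ⟨(mem_inter.1 x1).1, x2⟩, (mem_inter.1 x1).2⟩

theorem Good.subset_rs (h : Good g k I) : I ⊆ H20.rs k I A := fun X hX =>
  mem_rs.2 ⟨h.1 X hX, h.down hX fun _ hx => (mem_inter.1 hx).1⟩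

theorem Good.rs_mono (h : Good g k I) (hBA : B ⊆ A) : H20.rs k I A ⊆ H20.rs k I B := fun _ hX =>
  mem_rs.2 ⟨(mem_rs.1 hX).1, h.down (mem_rs.1 hX).2 fun _ hx =>
    mem_inter.2 ⟨(mem_inter.1 hx).1, hBA (mem_inter.1 hx).2⟩⟩

theorem below_wf (hs : Sing g k) (I : ZFSet.{u}) :
    WellFounded fun f h : ZFSet.{u} => f ∈ below g k I h := by
  rw [wellFounded_iff_isEmpty_descending_chain]
  refine ⟨fun ⟨F, hF⟩ => ?_⟩
  have hI := (mem_below.1 (hF 0)).2.1
  refine hI.2.2.2.2 (hI.cUnion hs subset_rfl _ (fun n => (mem_below.1 (hF n)).2.2) fun x hx => ?_)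
  by_contra h
  push Not at h
  exact (wellFounded_iff_isEmpty_descending_chain.1 mem_wf).false ⟨fun n => app (F n) x,
    fun n => not_not.1 fun h1 => h n (mem_sep.2 ⟨hx, h1⟩)⟩

/-- The Galvin-Hajnal rank. -/
noncomputable def rk (g k I : ZFSet.{u}) : ZFSet.{u} → ZFSet.{u} :=
  recF (below g k I) fun _ s => ⋃₀ img (fun z => insert (snd z) (snd z)) s

theorem Sing.tm_rk (hs : Sing g k) (s t : (ℕ → ZFSet.{u}) → ZFSet.{u}) [Tm Set.univ On s]
    [Tm Set.univ On t] : Tm Set.univ On (fun v => rk g k (s v) (t v)) := by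
  have : Tm Set.univ On (fun _ => k) := Tm.ofOrd hs.unc.1
  have : Tm Set.univ On (fun _ => g) := Tm.ofOrd (hs.unc.1.mem hs.mem)
  have : Tm Set.univ On (fun v => rk g k (v 1) (v 0)) :=
    Tm.recursion (fun v => below g k (v 0))
      (fun _ _ s => ⋃₀ img (fun z => insert (snd z) (snd z)) s) (fun v => rk g k (v 0))
      (fun v _ => below_wf hs (v 0)) fun v _ x _ => recF_eq (below_wf hs (v 0)) _ x
  exact Tm.two (fun a b => rk g k b a) t s

theorem mem_rk (hs : Sing g k) {z : ZFSet.{u}} :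
    z ∈ rk g k I h ↔ ∃ f ∈ below g k I h, z = rk g k I f ∨ z ∈ rk g k I f := by
  rw [rk, recF_eq (below_wf hs I), ← rk]
  simp only [mem_sUnion, gr, mem_img]
  constructor
  · rintro ⟨_, ⟨_, ⟨f, hf, rfl⟩, rfl⟩, hz⟩
    exact ⟨f, hf, by simpa using hz⟩
  · rintro ⟨f, hf, hz⟩
    exact ⟨_, ⟨_, ⟨f, hf, rfl⟩, rfl⟩, by simpa using hz⟩

theorem rk_lt (hs : Sing g k) (hf : f ∈ below g k I h) : rk g k I f ∈ rk g k I h :=
  (mem_rk hs).2 ⟨f, hf, Or.inl rfl⟩

theorem rk_ord (hs : Sing g k) (I h : ZFSet.{u}) : (rk g k I h).IsOrdinal := by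
  induction h using (below_wf hs I).induction with
  | _ h ih =>
    refine isOrdinal_iff_forall_mem_isOrdinal.2 ⟨fun z hz w hw => ?_, fun z hz => ?_⟩ <;>
      obtain ⟨f, hf, h1 | h1⟩ := (mem_rk hs).1 hz
    · exact (mem_rk hs).2 ⟨f, hf, Or.inr (h1 ▸ hw)⟩
    · exact (mem_rk hs).2 ⟨f, hf, Or.inr ((ih f hf).mem_trans hw h1)⟩
    · exact h1 ▸ ih f hf
    · exact (ih f hf).mem h1

theorem rk_mono (hs : Sing g k) (hI : Good g k I') (hII : I ⊆ I')
    (hfh : (k.sep fun x => ¬ app f x ⊆ app h x) ∈ I') : rk g k I f ⊆ rk g k I' h := by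
  induction f using (below_wf hs I).induction generalizing h with
  | _ f ih =>
    intro z hz
    obtain ⟨f', hf, h1⟩ := (mem_rk hs).1 hz
    obtain ⟨a1, -, a2⟩ := mem_below.1 hf
    have h2 := rk_lt hs (mem_below.2 ⟨a1, hI, hI.union hs (hII a2) hfh (X := k.sep fun x =>
      app f' x ∉ app h x) sep_subset fun x hx h2 => mem_sep.2 ⟨(mem_sep.1 hx).1, fun h3 =>
        (mem_sep.1 hx).2 (h3 (not_not.1 fun h4 => h2 (mem_sep.2 ⟨(mem_sep.1 hx).1, h4⟩)))⟩⟩)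
    have h3 := ih f' hf (h := f') (hI.empty hs fun x hx => (mem_sep.1 hx).2 subset_rfl)
    have h4 := (rk_ord hs I f').mem_of_subset_of_mem (rk_ord hs I' h) h3 h2
    exact h1.elim (fun e => e ▸ h4) fun h5 => (rk_ord hs I' h).mem_trans h5 h4

theorem rk_mono' (hs : Sing g k) (hI : Good g k I') (hII : I ⊆ I') (f : ZFSet.{u}) :
    rk g k I f ⊆ rk g k I' f :=
  rk_mono hs hI hII (hI.empty hs fun _ hx => (mem_sep.1 hx).2 subset_rfl)

theorem exists_rk (hs : Sing g k) (hh : ∀ x ∈ k, (app h x).IsOrdinal) {z : ZFSet.{u}}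
    (hz : z ∈ rk g k I h) : ∃ f ∈ below g k I h, rk g k I f = z := by
  induction h using (below_wf hs I).induction with
  | _ h ih =>
    obtain ⟨f, hf, h1 | h1⟩ := (mem_rk hs).1 hz
    · exact ⟨f, hf, h1.symm⟩
    · obtain ⟨a1, hI, a2⟩ := mem_below.1 hf
      obtain ⟨f', h2, h3⟩ := ih f hf (fun x hx => hs.unc.1.mem (a1.app_mem' hx)) h1
      refine ⟨f', mem_below.2 ⟨(mem_below.1 h2).1, hI, hI.union hs (mem_below.1 h2).2.2 a2
        sep_subset fun x hx h4 => mem_sep.2 ⟨(mem_sep.1 hx).1, fun h5 => (mem_sep.1 hx).2 ?_⟩⟩, h3⟩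
      exact (hh x (mem_sep.1 hx).1).mem_trans
        (not_not.1 fun h6 => h4 (mem_sep.2 ⟨(mem_sep.1 hx).1, h6⟩)) h5

theorem fiber (hs : Sing g k) (hI : Good g k I) (hA : A ⊆ k) (hA' : A ∉ I) {v : ZFSet.{u}}
    (hv : Reg g k A v) {z : ZFSet.{u}} (hz : z.IsOrdinal)
    (h1 : ∀ y, (A.sep fun x => app v x = y) ∉ I →
      z ⊆ rk g k (rs k I (A.sep fun x => app v x = y)) h) : z ⊆ rk g k (rs k I A) h := by
  induction z using ZFSet.inductionOn generalizing h with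
  | _ z ih =>
    intro w hw
    have h2 : ∀ y, ∃ f, IsFunc k k f ∧ ((A.sep fun x => app v x = y) ∉ I →
        f ∈ below g k (rs k I (A.sep fun x => app v x = y)) h ∧
          w ⊆ rk g k (rs k I (A.sep fun x => app v x = y)) f) := fun y => by
      by_cases e : (A.sep fun x => app v x = y) ∈ I
      · exact ⟨gr (fun x => x) k, isFunc_gr fun _ h => h, fun h => absurd e h⟩
      · obtain ⟨f, f1, f2⟩ := (mem_rk hs).1 (h1 y e hw)
        exact ⟨f, (mem_below.1 f1).1, fun _ => ⟨f1, f2.elim (fun e => e ▸ subset_rfl)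
          (rk_ord hs _ _).subset_of_mem⟩⟩
    choose F f1 f2 using h2
    have h3 : ∀ x ∈ k, app (gr (fun x => app (F (app v x)) x) k) x = app (F (app v x)) x :=
      fun x hx => app_gr hx
    refine (hz.mem hw).mem_of_subset_of_mem (rk_ord hs _ _)
      (ih w hw (hz.mem hw) (h := gr (fun x => app (F (app v x)) x) k) fun y hy =>
        (f2 y hy).2.trans (rk_mono hs (hI.rs (sep_subset.trans hA) hy) subset_rfl
          (mem_rs.2 ⟨sep_subset, hI.empty hs fun x hx => ?_⟩)))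
      (rk_lt hs (mem_below.2 ⟨isFunc_gr fun x hx => (f1 _).app_mem' hx, hI.rs hA hA',
        mem_rs.2 ⟨sep_subset, hI.2.2.2.1 _ (fun x hx => hA (mem_inter.1 hx).2) v
          (hv.mono fun x hx => (mem_inter.1 hx).2) fun y => ?_⟩⟩))
    · obtain ⟨x1, x2⟩ := mem_inter.1 hx
      obtain ⟨x3, x4⟩ := mem_sep.1 x1
      rw [h3 x x3, (mem_sep.1 x2).2] at x4
      exact x4 subset_rfl
    · by_cases e : (A.sep fun x => app v x = y) ∈ I
      · exact hI.down e fun x hx =>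
          mem_sep.2 ⟨(mem_inter.1 (mem_sep.1 hx).1).2, (mem_sep.1 hx).2⟩
      · refine hI.down (mem_rs.1 (mem_below.1 (f2 y e).1).2.2).2 fun x hx => ?_
        obtain ⟨x1, x2⟩ := mem_sep.1 hx
        obtain ⟨x3, x4⟩ := mem_inter.1 x1
        obtain ⟨x5, x6⟩ := mem_sep.1 x3
        rw [h3 x x5, x2] at x6
        exact mem_inter.2 ⟨mem_sep.2 ⟨x5, x6⟩, mem_sep.2 ⟨x4, x2⟩⟩

/-- `f` has rank `z` on every `J`-positive set. -/
def Can (g k I J z f : ZFSet.{u}) : Prop :=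
  IsFunc k k f ∧ ∀ A, A ⊆ k → A ∉ J → rk g k (rs k I A) f = z

theorem exists_can (hs : Sing g k) (hI : Good g k I) (hf : IsFunc k k f) :
    ∃ J, Good g k J ∧ I ⊆ J ∧ Can g k I J (rk g k I f) f := by
  have e0 : rs k I k = I := by
    ext X
    rw [mem_rs]
    exact ⟨fun h => hI.down h.2 fun x hx => mem_inter.2 ⟨hx, h.1 hx⟩,
      fun h => ⟨hI.1 X h, hI.down h fun x hx => (mem_inter.1 hx).1⟩⟩
  refine ⟨(powerset k).sep fun A => A ∈ I ∨ rk g k I f ∈ rk g k (rs k I A) f,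
    ⟨fun A hA => mem_powerset.1 (mem_sep.1 hA).1, fun A hA B hB => ?_,
      fun A hA h1 => mem_sep.2 ⟨mem_powerset.2 hA, Or.inl (hI.2.2.1 A hA h1)⟩,
      fun A hA v hv h1 => ?_, fun h1 => ?_⟩,
    fun A hA => mem_sep.2 ⟨mem_powerset.2 (hI.1 A hA), Or.inl hA⟩, hf, fun A hA h1 => ?_⟩
  · obtain ⟨h1, h2⟩ := mem_sep.1 hA
    have h3 := hB.trans (mem_powerset.1 h1)
    refine mem_sep.2 ⟨mem_powerset.2 h3, or_iff_not_imp_left.2 fun h4 => ?_⟩
    exact rk_mono' hs (hI.rs h3 h4) (hI.rs_mono hB) f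
      (h2.resolve_left fun h5 => h4 (hI.2.1 A h5 B hB))
  · refine mem_sep.2 ⟨mem_powerset.2 hA, or_iff_not_imp_left.2 fun h2 => ?_⟩
    refine fiber hs hI hA h2 hv (isOrdinal_succ (rk_ord hs I f)) (fun y hy z hz => ?_)
      (mem_insert _ _)
    have h3 := (mem_sep.1 (h1 y)).2.resolve_left hy
    rcases mem_insert_iff.1 hz with rfl | hz
    exacts [h3, (rk_ord hs _ _).mem_trans hz h3]
  · rw [mem_sep, e0] at h1
    exact h1.2.elim hI.2.2.2.2 (mem_irrefl _)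
  · simp only [mem_sep, mem_powerset, hA, true_and, not_or] at h1
    exact (((rk_ord hs _ _).eq_or_mem_of_subset (rk_ord hs _ _)
      (rk_mono' hs (hI.rs hA h1.1) hI.subset_rs f)).resolve_right h1.2).symm

theorem Can.unique (hs : Sing g k) (hI : Good g k I) {J z f' : ZFSet.{u}} (hJ : Good g k J)
    (hIJ : I ⊆ J) (h1 : Can g k I J z f) (h2 : Can g k I J z f') :
    (k.sep fun x => app f x ≠ app f' x) ∈ J := by
  have key : ∀ {f f' : ZFSet.{u}}, Can g k I J z f → Can g k I J z f' →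
      (k.sep fun x => app f x ∈ app f' x) ∈ J := fun {f f'} h1 h2 => by
    by_contra h3
    have h4 := rk_lt hs (mem_below.2 ⟨h1.1, hI.rs sep_subset fun h4 => h3 (hIJ h4),
      mem_rs.2 ⟨sep_subset, hI.empty hs fun x hx => (mem_sep.1 (mem_inter.1 hx).1).2
        (mem_sep.1 (mem_inter.1 hx).2).2⟩⟩ : f ∈ below g k _ f')
    rw [h1.2 _ sep_subset h3, h2.2 _ sep_subset h3] at h4
    exact mem_irrefl _ h4
  refine hJ.union hs (key h1 h2) (key h2 h1) sep_subset fun x hx h3 => ?_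
  obtain ⟨x1, x2⟩ := mem_sep.1 hx
  rcases (hs.unc.1.mem (h1.1.app_mem' x1)).mem_trichotomous
    (hs.unc.1.mem (h2.1.app_mem' x1)) with h4 | h4 | h4
  exacts [absurd (mem_sep.2 ⟨x1, h4⟩) h3, absurd h4 x2, mem_sep.2 ⟨x1, h4⟩]

end Pool.Agent.MP_ecfd11_lc.H20
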