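import Pool.Agent.MP_ecfd11_lc.H20.GH

/-!
Counting normal ideals and bounding Galvin-Hajnal ranks.
-/

set_option synthInstance.maxSize 4000

namespace Pool.Agent.MP_ecfd11_lc.H20

universe u

open ZFSet Function Classical Cardinal

variable {g k I X T h : ZFSet.{u}}

theorem Unc.club_lim (hk : Unc k) (x1 : X ⊆ k) (x2 : ∀ b ∈ k, ∃ x ∈ X, b ∈ x) :
    Club k (lim k X) := by
  refine ⟨sep_subset, fun b hb => ?_, fun e he hne h => mem_sep.2 ⟨he, hne, fun b hb => ?_⟩⟩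
  · choose! N n1 n2 using x2
    obtain ⟨e, he, h1, h2⟩ := hk.exists_closed N (fun x hx => ⟨x1 (n1 x hx), n2 x hx⟩) hb
    refine ⟨e, mem_sep.2 ⟨he, ⟨b, h1⟩, fun x hx => ?_⟩, h1⟩
    obtain ⟨y, y1, y2, y3⟩ := h2 x hx
    have hy := hk.1.mem_trans y1 he
    exact ⟨N y, n1 y hy, (hk.1.mem (x1 (n1 y hy))).mem_trans y2 (n2 y hy), y3⟩
  · obtain ⟨z, hz, h2, h3⟩ := h b hb
    obtain ⟨y, hy, h4, h5⟩ := (mem_sep.1 hz).2.2 b h2
    exact ⟨y, hy, h4, (hk.1.mem he).mem_trans h5 h3⟩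

theorem card_lim_le (ha : k.IsOrdinal) (x1 : X ⊆ k) (x2 : ∀ b ∈ k, ∃ x ∈ X, b ∈ x) :
    card (lim k X) ≤ card X := by
  have h1 : ∀ g ∈ k, ∃ x, x ∈ X ∧ g ⊆ x := fun g hg => by
    obtain ⟨x, h1, h2⟩ := x2 g hg
    exact ⟨x, h1, (ha.mem (x1 h1)).subset_of_mem h2⟩
  choose! Z0 z0 using h1
  choose! Z z1 z2 using fun g (hg : g ∈ k) =>
    exists_min_mem (p := fun x => x ∈ X ∧ g ⊆ x) (z0 g hg)
  have h2 : ∀ g ∈ k, ∀ g' ∈ k, (∀ x ∈ g', ∃ y ∈ X, x ∈ y ∧ y ∈ g') → Z g = Z g' → g ∉ g' :=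
    fun g hg g' hg' h e hgg => by
      obtain ⟨x, h3, h4, h5⟩ := h g hgg
      exact z2 g hg x (e ▸ (z1 g' hg').2 h5) ⟨h3, (ha.mem (x1 h3)).subset_of_mem h4⟩
  refine card_le_of_inj Z (fun g hg => (z1 g (mem_sep.1 hg).1).1) fun g hg g' hg' e => ?_
  obtain ⟨g1, -, g2⟩ := mem_sep.1 hg
  obtain ⟨g3, -, g4⟩ := mem_sep.1 hg'
  rcases (ha.mem g1).mem_trichotomous (ha.mem g3) with h3 | h3 | h3
  exacts [absurd h3 (h2 g g1 g' g3 g4 e), h3, absurd h3 (h2 g' g3 g g1 g2 e.symm)]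

theorem sing_of_cof (hg : Cof Set.univ g k) (h0 : ℵ₀ < card g) (hm : g ∈ k)
    (hsl : ∀ a ∈ k, 2 ^ card a < card k) : Sing g k := by
  have hk := hg.1
  have hgo := hk.mem hm
  have h1 : ∀ y, y ⊆ k → card y < card g → ∃ c ∈ k, ∀ z ∈ y, z ∈ c := fun y y1 y2 => by
    obtain ⟨G, hG⟩ := exists_surj_of_card_le (a := (card y).ord.toZFSet) (b := y)
      (by rw [card_ord'])
    obtain ⟨b, hb, h2⟩ := hg.2.2 (card y).ord.toZFSet (((isOrdinal_toZFSet _).mem_or_subset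
      hgo).resolve_right fun h => (card_mono h).not_gt (by rwa [card_ord']))
      (gr (fun j => if G j ∈ y then G j else g) _) trivial
      (isFunc_gr fun i _ => by split_ifs with h'; exacts [y1 h', hm])
    refine ⟨b, hb, fun i hi => ?_⟩
    obtain ⟨j, hj, rfl⟩ := hG i hi
    exact h2 j _ (pair_mem_gr.2 ⟨hj, by simp [hi]⟩)
  obtain ⟨F, f1, f2, f3⟩ := hg.exists_fun innerModel_univ hgo
  have h2 : ∀ i ∈ g, card (insert i i) < card g := fun i hi => by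
    refine card_insert_le.trans_lt (add_lt_of_lt h0.le ?_ (one_lt_aleph0.trans h0))
    by_contra h2
    obtain ⟨G, hG⟩ := exists_surj_of_card_le (not_lt.1 h2)
    obtain ⟨b, hb, h3⟩ := hg.2.2 i hi (gr (fun j => if G j ∈ g then F (G j) else g) _) trivial
      (isFunc_gr fun i _ => by split_ifs with h'; exacts [f1 _ h', hm])
    obtain ⟨j, hj, h4⟩ := f2 b hb
    obtain ⟨j', hj', rfl⟩ := hG j hj
    exact mem_asymm h4 (h3 j' _ (pair_mem_gr.2 ⟨hj', by simp [hj]⟩))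
  have h3 : ∀ d ∈ g, (⋃₀ img F (insert d d) : ZFSet.{u}) ∈ k := fun d hd => by
    have h3 : ∀ y ∈ img F (insert d d), y ∈ k := fun y hy => by
      obtain ⟨i, hi, rfl⟩ := mem_img.1 hy
      exact f1 i ((mem_insert_iff.1 hi).elim (fun e => e ▸ hd) fun h => hgo.mem_trans h hd)
    obtain ⟨c, c1, c2⟩ := h1 _ h3 ((card_img_le _ _).trans_lt (h2 d hd))
    refine (isOrdinal_sUnion fun y hy => hk.mem (h3 y hy)).mem_of_subset_of_mem hk
      (fun z hz => ?_) c1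
    obtain ⟨y, hy, hz⟩ := mem_sUnion.1 hz
    exact (hk.mem c1).mem_trans hz (c2 y hy)
  refine ⟨⟨hk, fun y y1 y2 => h1 y y1 (y2.trans_lt (card_om ▸ h0))⟩, card_om ▸ h0, h1,
    ⟨img (fun d => ⋃₀ img F (insert d d)) g, fun y hy => ?_, card_img_le _ _, fun b hb => ?_,
      fun e he => ?_⟩, hm, hsl⟩
  · obtain ⟨d, hd, rfl⟩ := mem_img.1 hy
    exact h3 d hd
  · obtain ⟨i, hi, h4⟩ := f2 b hb
    exact ⟨_, mem_img.2 ⟨i, hi, rfl⟩, mem_sUnion.2 ⟨_, mem_img.2 ⟨i, mem_insert _ _, rfl⟩, h4⟩⟩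
  · obtain ⟨i, hi, h4⟩ := f2 e he
    refine lt_of_le_of_lt ((card_mono (y := img (fun d => ⋃₀ img F (insert d d)) (insert i i))
      fun y hy => ?_).trans (card_img_le _ _)) (h2 i hi)
    obtain ⟨d, hd, rfl⟩ := mem_img.1 (mem_inter.1 hy).1
    refine mem_img.2 ⟨d, mem_insert_of_mem _ ?_, rfl⟩
    by_contra h5
    exact mem_asymm (mem_inter.1 hy).2 (mem_sUnion.2 ⟨_, mem_img.2 ⟨i, mem_insert_iff.2
      ((hgo.mem hi).eq_or_mem_of_subset (hgo.mem hd)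
        (((hgo.mem hd).notMem_iff_subset (hgo.mem hi)).1 h5)), rfl⟩, h4⟩)

theorem good_ns (hs : Sing g k) (hT : ¬ Null k T) :
    Good g k ((powerset k).sep fun A => Null k (A ∩ T)) := by
  have hk := hs.unc
  refine ⟨fun A hA => mem_powerset.1 (mem_sep.1 hA).1, fun A hA B hB => mem_sep.2
    ⟨mem_powerset.2 (hB.trans (mem_powerset.1 (mem_sep.1 hA).1)), (mem_sep.1 hA).2.mono
      fun x hx _ => mem_inter.2 ⟨hB (mem_inter.1 hx).1, (mem_inter.1 hx).2⟩⟩,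
    fun A hA h1 => mem_sep.2 ⟨mem_powerset.2 hA, h1.mono fun x hx _ => (mem_inter.1 hx).1⟩,
    fun A hA v hv h1 => mem_sep.2 ⟨mem_powerset.2 hA, ?_⟩,
    fun h1 => hT ((mem_sep.1 h1).2.mono fun x hx hx' => mem_inter.2 ⟨hx', hx⟩)⟩
  choose E e1 e2 using fun y => (mem_sep.1 (h1 y)).2
  have h2 : ∀ y, ∀ b ∈ k, ∃ x ∈ E y, b ∈ x := fun y => (e1 y).2.1
  choose! Y y1 y2 using h2
  have h3 : ∀ b ∈ k, ∃ c ∈ k, b ∈ c ∧ ∀ y ∈ img (fun x => app v x) A ∩ b, Y y b ∈ c :=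
    fun b hb => by
      obtain ⟨c, c1, c2⟩ := hs.bdd (img (fun y => Y y b) (img (fun x => app v x) A ∩ b))
        (fun z hz => by obtain ⟨y, -, rfl⟩ := mem_img.1 hz; exact (e1 y).1 (y1 y b hb))
        ((card_img_le _ _).trans_lt (not_le.1 (hv.2 b hb)))
      obtain ⟨c', c3, c4, c5⟩ := exists_bound2 hk.1 c1 (hk.succ_mem hb)
      exact ⟨c', c3, c5 (mem_insert _ _), fun y hy => c4 (c2 _ (mem_img.2 ⟨y, hy, rfl⟩))⟩
  choose! N n1 n2 n3 using h3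
  have h4 : Null k (k.sep fun e => ∃ y ∈ img (fun x => app v x) A, y ∈ e ∧ e ∉ E y) := by
    refine ⟨k.sep fun e => ∀ y ∈ img (fun x => app v x) A, y ∈ e →
      ∀ b ∈ e, ∃ z ∈ E y, b ∈ z ∧ z ∈ e, ⟨sep_subset, fun b hb => ?_,
        fun e he _ h => mem_sep.2 ⟨he, fun y hy hye b hb => ?_⟩⟩, fun e he h => ?_⟩
    · obtain ⟨e, he, h1, h2⟩ := hk.exists_closed N (fun x hx => ⟨n1 x hx, n2 x hx⟩) hb
      refine ⟨e, mem_sep.2 ⟨he, fun y hy hye c hc => ?_⟩, h1⟩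
      have heo := hk.1.mem he
      obtain ⟨w, w1, w2, w3⟩ := exists_bound2 heo hye hc
      obtain ⟨z, z1, z2, z3⟩ := h2 w w1
      have hz := hk.1.mem_trans z1 he
      have hzo := heo.mem z1
      exact ⟨Y y z, y1 y z hz, (hk.1.mem ((e1 y).1 (y1 y z hz))).mem_trans
        ((heo.mem hc).mem_of_subset_of_mem hzo w3 z2) (y2 y z hz), heo.mem_trans (n3 z hz y
          (mem_inter.2 ⟨hy, (heo.mem hye).mem_of_subset_of_mem hzo w2 z2⟩)) z3⟩
    · have heo := hk.1.mem he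
      obtain ⟨w, w1, w2, w3⟩ := exists_bound2 heo hye hb
      obtain ⟨z, z1, z2, z3⟩ := h w w1
      have hzo := heo.mem z3
      obtain ⟨x, x1, x2, x3⟩ := (mem_sep.1 z1).2 y hy
        ((heo.mem hye).mem_of_subset_of_mem hzo w2 z2) b
        ((heo.mem hb).mem_of_subset_of_mem hzo w3 z2)
      exact ⟨x, x1, x2, heo.mem_trans x3 z3⟩
    · obtain ⟨h5, y, hy, h6, h7⟩ := mem_sep.1 he
      exact h7 ((e1 y).2.2 e h5 ⟨y, h6⟩ ((mem_sep.1 h).2 y hy h6))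
  refine (hk.null_union hv.1 h4).mono fun x hx hx' => mem_union.2
    (or_iff_not_imp_left.2 fun h5 => mem_sep.2 ⟨hx', app v x, mem_img.2
      ⟨x, (mem_inter.1 hx).1, rfl⟩, not_not.1 fun h6 => h5 (mem_sep.2 ⟨(mem_inter.1 hx).1, h6⟩),
      e2 _ x (mem_inter.2 ⟨mem_sep.2 ⟨(mem_inter.1 hx).1, rfl⟩, (mem_inter.1 hx).2⟩)⟩)

/-- The set of proper normal ideals. -/
noncomputable def ideals (g k : ZFSet.{u}) : ZFSet.{u} :=
  (powerset (powerset k)).sep fun I => Good g k I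

theorem mem_ideals : I ∈ ideals g k ↔ Good g k I := by
  rw [ideals, mem_sep, mem_powerset]
  exact and_iff_right_of_imp fun h A hA => mem_powerset.2 (h.1 A hA)

theorem card_ideals (hs : Sing g k) : card (ideals g k) ≤ 2 ^ ((2 : Cardinal.{u}) ^ card g) := by
  obtain ⟨X, x1, x2, x3, -⟩ := hs.cof
  have hL := hs.unc.club_lim x1 x3
  refine le_trans ?_ (power_le_power_left two_ne_zero (power_le_power_left two_ne_zero
    ((card_lim_le hs.unc.1 x1 x3).trans x2)))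
  rw [← card_powerset, ← card_powerset]
  have key : ∀ I ∈ ideals g k, ∀ J ∈ ideals g k,
      I ∩ powerset (lim k X) = J ∩ powerset (lim k X) → I ⊆ J := fun I hI J hJ e A hA => by
    rw [mem_ideals] at hI hJ
    have h1 : A ∩ lim k X ∈ J ∩ powerset (lim k X) := e ▸ mem_inter.2
      ⟨hI.down hA fun x hx => (mem_inter.1 hx).1, mem_powerset.2 fun x hx => (mem_inter.1 hx).2⟩
    exact hJ.union hs (mem_inter.1 h1).1 (hJ.2.2.1 (k \ lim k X) (fun x hx => (mem_sdiff.1 hx).1)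
      ⟨_, hL, fun x hx => (mem_sdiff.1 hx).2⟩) (hI.1 A hA) fun x hx h2 =>
        mem_sdiff.2 ⟨hI.1 A hA hx, fun h3 => h2 (mem_inter.2 ⟨hx, h3⟩)⟩
  exact card_le_of_inj (fun I => I ∩ powerset (lim k X))
    (fun I _ => mem_powerset.2 fun x hx => (mem_inter.1 hx).2)
    fun I hI J hJ e => subset_antisymm (key I hI J hJ e) (key J hJ I hI e.symm)

theorem Sing.card_lt (hs : Sing g k) {a : ZFSet.{u}} (ha : a ∈ k) : card a < card k :=
  (cantor _).trans (hs.sl a ha)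

theorem Sing.inf (hs : Sing g k) : ℵ₀ ≤ card g := card_om ▸ hs.cnt.le

theorem card_rk_le (hs : Sing g k) (hI : Good g k I)
    (hh : ∀ x ∈ k, (app h x).IsOrdinal ∧ (om ⊆ x → card (app h x) ≤ card x)) :
    card (rk g k I h) ≤ card k := by
  obtain ⟨X, x1, x2, x3, x4⟩ := hs.cof
  have hk := hs.unc
  have hL := hk.club_lim x1 x3
  have h1 : ∀ x ∈ k, ∃ F : ZFSet.{u} → ZFSet.{u}, om ⊆ x → (∀ y ∈ app h x, F y ∈ x) ∧
      ∀ y ∈ app h x, ∀ z ∈ app h x, F y = F z → y = z := fun x hx => by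
    by_cases e : om ⊆ x
    · exact (exists_inj_of_card_le ((hh x hx).2 e)).imp fun _ h _ => h
    · exact ⟨id, fun h => absurd h e⟩
  choose! b hb using h1
  choose! V0 v0 using x3
  choose! V v1 v2 using fun y (hy : y ∈ k) =>
    exists_min_mem (p := fun c => c ∈ X ∧ y ∈ c) (v0 y hy)
  have h2 : ∀ z ∈ rk g k I h, ∃ f A y, y ∈ X ∧ A ⊆ lim k X ∧ A ∉ I ∧
      rk g k (rs k I A) f = z ∧
      ∀ x ∈ A, om ⊆ x ∧ app f x ∈ app h x ∧ b x (app f x) ∈ y := fun z hz => by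
    obtain ⟨f, f1, rfl⟩ := exists_rk hs (fun x hx => (hh x hx).1) hz
    obtain ⟨f2, -, f3⟩ := mem_below.1 f1
    obtain ⟨J, j1, j2, j3⟩ := exists_can hs hI f2
    have a1 : ((lim k X).sep fun x => om ⊆ x ∧ app f x ∈ app h x) ∉ J := fun a1 => by
      refine j1.2.2.2.2 (j1.union hs a1 (j1.union hs (j2 f3) (j1.2.2.1 _ sep_subset
        ((hk.null_union (hk.null_bdd hk.omega_mem) (⟨_, hL, fun x hx => (mem_sdiff.1 hx).2⟩ :
          Null k (k \ lim k X))).mono fun x hx _ => (mem_sep.1 hx).2) :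
        (k.sep fun x => x ∈ insert om om ∪ (k \ lim k X)) ∈ J)
        (X := k.sep fun x => x ∉ (lim k X).sep fun x => om ⊆ x ∧ app f x ∈ app h x) sep_subset
        fun x hx h3 => ?_) subset_rfl fun x hx h3 => mem_sep.2 ⟨hx, h3⟩)
      obtain ⟨a1, a2⟩ := mem_sep.1 hx
      refine mem_sep.2 ⟨a1, mem_union.2 (or_iff_not_imp_left.2 fun h4 => mem_sdiff.2
        ⟨a1, fun h5 => a2 (mem_sep.2 ⟨h5, ?_, not_not.1 fun h6 => h3 (mem_sep.2 ⟨a1, h6⟩)⟩)⟩)⟩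
      exact ((hk.1.mem a1).notMem_iff_subset (isOrdinal_toZFSet _)).1
        fun h6 => h4 (mem_insert_of_mem _ h6)
    have a2 : ∀ x ∈ (lim k X).sep fun x => om ⊆ x ∧ app f x ∈ app h x,
        b x (app f x) ∈ x ∧ b x (app f x) ∈ k := fun x hx => by
      obtain ⟨a2, a3, a4⟩ := mem_sep.1 hx
      have a5 := (hb x (hL.1 a2) a3).1 _ a4
      exact ⟨a5, hk.1.mem_trans a5 (hL.1 a2)⟩
    have a3 := mt (j1.fn (sep_subset.trans hL.1) (fun x => V (b x (app f x)))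
      (hk.null_empty.mono fun x hx hx' => ?_) fun e he => lt_of_le_of_lt
        (card_mono fun y hy => ?_) (x4 e he)) a1
    · push Not at a3
      obtain ⟨y, hy⟩ := a3
      have a4 : ∃ x, x ∈ ((lim k X).sep fun x => om ⊆ x ∧ app f x ∈ app h x).sep
          fun x => V (b x (app f x)) = y := by
        by_contra a4
        push Not at a4
        exact hy (j1.empty hs a4)
      obtain ⟨x, hx⟩ := a4
      refine ⟨f, _, y, (mem_sep.1 hx).2 ▸ (v1 _ (a2 x (mem_sep.1 hx).1).2).1,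
        sep_subset.trans sep_subset, fun h => hy (j2 h),
        j3.2 _ ((sep_subset.trans sep_subset).trans hL.1) hy, fun x hx => ?_⟩
      obtain ⟨a4, a5⟩ := mem_sep.1 hx
      exact ⟨(mem_sep.1 a4).2.1, (mem_sep.1 a4).2.2, a5 ▸ (v1 _ (a2 x a4).2).2⟩
    · obtain ⟨a3, a4⟩ := mem_sep.1 hx
      obtain ⟨c, c1, c2, c3⟩ := (mem_sep.1 (mem_sep.1 a3).1).2.2 _ (a2 x a3).1
      refine absurd ((hk.1.mem (x1 (v1 _ (a2 x a3).2).1)).mem_of_subset_of_mem (hk.1.mem hx')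
        (((hk.1.mem (x1 c1)).notMem_iff_subset (hk.1.mem (x1 (v1 _ (a2 x a3).2).1))).1
          fun h => v2 _ (a2 x a3).2 c h ⟨c1, c2⟩) c3) a4
    · obtain ⟨x, hx, rfl⟩ := mem_img.1 (mem_inter.1 hy).1
      exact mem_inter.2 ⟨(v1 _ (a2 x hx).2).1, (mem_inter.1 hy).2⟩
  choose! F A Y a1 a2 a3 a4 a5 using h2
  have hinf : ℵ₀ ≤ card k := hs.inf.trans (hs.card_lt hs.mem).le
  refine (card_le_of_inj (b := ⋃₀ img (fun y => powerset (prod (lim k X) y)) X)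
    (fun z => gr (fun x => b x (app (F z) x)) (A z)) (fun z hz => mem_sUnion.2
      ⟨_, mem_img.2 ⟨Y z, a1 z hz, rfl⟩, mem_powerset.2 fun w hw => ?_⟩)
    fun z hz z' hz' e => ?_).trans ((card_sUnion_img_le (k := card k) fun y hy => ?_).trans
      ((mul_le_mul' (x2.trans (hs.card_lt hs.mem).le) le_rfl).trans (mul_eq_self hinf).le))
  · obtain ⟨x, hx, rfl⟩ := mem_img.1 hw
    exact pair_mem_prod.2 ⟨a2 z hz hx, (a5 z hz x hx).2.2⟩
  · have key : ∀ z ∈ rk g k I h, ∀ z' ∈ rk g k I h,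
        gr (fun x => b x (app (F z) x)) (A z) = gr (fun x => b x (app (F z') x)) (A z') →
        ∀ x ∈ A z, x ∈ A z' ∧ app (F z) x = app (F z') x := fun z hz z' hz' e x hx => by
      obtain ⟨h1, h2⟩ := pair_mem_gr.1 (e ▸ pair_mem_gr.2 ⟨hx, rfl⟩ :
        pair x (b x (app (F z) x)) ∈ gr (fun x => b x (app (F z') x)) (A z'))
      exact ⟨h1, (hb x (hL.1 (a2 z hz hx)) (a5 z hz x hx).1).2 _ (a5 z hz x hx).2.1 _
        (a5 z' hz' x h1).2.1 h2.symm⟩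
    have e1 : A z = A z' := subset_antisymm (fun x hx => (key z hz z' hz' e x hx).1)
      fun x hx => (key z' hz' z hz e.symm x hx).1
    rw [← a4 z hz, ← a4 z' hz', ← e1]
    have h3 := hI.rs ((a2 z hz).trans hL.1) (a3 z hz)
    exact subset_antisymm
      (rk_mono hs h3 subset_rfl (mem_rs.2 ⟨sep_subset, hI.empty hs fun x hx =>
        (mem_sep.1 (mem_inter.1 hx).1).2 (key z hz z' hz' e x (mem_inter.1 hx).2).2.subset⟩))
      (rk_mono hs h3 subset_rfl (mem_rs.2 ⟨sep_subset, hI.empty hs fun x hx =>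
        (mem_sep.1 (mem_inter.1 hx).1).2 (key z hz z' hz' e x (mem_inter.1 hx).2).2.superset⟩))
  · obtain ⟨a, ha, h1, h2⟩ := exists_bound2 hk.1 hs.mem (x1 hy)
    rw [card_powerset]
    exact (power_le_power_left two_ne_zero ((card_prod_le _ _).trans ((mul_le_mul'
      (((card_lim_le hk.1 x1 fun y hy => ⟨_, v0 y hy⟩).trans x2).trans (card_mono h1))
      (card_mono h2)).trans (mul_eq_self (hs.inf.trans (card_mono h1))).le))).trans (hs.sl a ha).le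

end Pool.Agent.MP_ecfd11_lc.H20
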