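import Pool.Agent.MP_ecfd11_lc.Dich
import Pool.Agent.MP_ecfd11_lc.H20.Defs

/-!
`OD` and `HOD` are definable classes.
-/

set_option synthInstance.maxSize 4000

namespace Pool.Agent.MP_ecfd11_lc.H20

universe u

open ZFSet Function Classical Cardinal

/-- One step of the recognition of trees. -/
noncomputable def trStep (t g : ZFSet.{u}) : ZFSet.{u} :=
  if t.IsOrdinal ∨ (t = pair (fst t) (snd t) ∧ app g (fst t) = {∅} ∧ app g (snd t) = {∅})
    then {∅} else ∅

/-- The characteristic function of the class of trees. -/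
noncomputable def trF : ZFSet.{u} → ZFSet.{u} := recF tc trStep

theorem sing_ne : ({∅} : ZFSet.{u}) ≠ ∅ := fun e => by
  have h : (∅ : ZFSet.{u}) ∈ ({∅} : ZFSet.{u}) := mem_singleton.2 rfl
  rw [e] at h
  exact notMem_empty _ h

theorem trF_eq (t : ZFSet.{u}) : trF t = {∅} ↔ t.IsOrdinal ∨
    (t = pair (fst t) (snd t) ∧ app (gr trF (tc t)) (fst t) = {∅} ∧
      app (gr trF (tc t)) (snd t) = {∅}) := by
  rw [trF, recF_eq tc_wf, ← trF, trStep]
  split_ifs with h
  · exact iff_of_true rfl h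
  · exact iff_of_false sing_ne.symm h

theorem trF_iff (t : ZFSet.{u}) : trF t = {∅} ↔ Tr t := by
  constructor
  · induction t using tc_wf.induction with
    | _ t ih =>
      intro h
      rcases (trF_eq t).1 h with h | ⟨h1, h2, h3⟩
      · exact .leaf h
      · obtain ⟨x, y, rfl⟩ : ∃ x y, t = pair x y := ⟨_, _, h1⟩
        rw [fst_pair, app_gr (fst_mem_tc _ _)] at h2
        rw [snd_pair, app_gr (snd_mem_tc _ _)] at h3
        exact .node (ih x (fst_mem_tc _ _) h2) (ih y (snd_mem_tc _ _) h3)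
  · intro h
    induction h with
    | leaf h => exact (trF_eq _).2 (Or.inl h)
    | node _ _ ih1 ih2 =>
      refine (trF_eq _).2 (Or.inr ?_)
      rw [fst_pair, snd_pair, app_gr (fst_mem_tc _ _), app_gr (snd_mem_tc _ _)]
      exact ⟨rfl, ih1, ih2⟩

instance Tm.trF (t : (ℕ → ZFSet.{u}) → ZFSet.{u}) [Tm Set.univ On t] :
    Tm Set.univ On (fun v => trF (t v)) :=
  haveI : Tm Set.univ On (fun v => H20.trF.{u} (v 0)) :=
    Tm.recursion (fun _ x => tc x) (fun _ => trStep) (fun _ => H20.trF)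
      (hF := by unfold trStep; infer_instance) (fun _ _ => tc_wf)
      fun _ _ x _ => recF_eq tc_wf _ x
  Tm.one H20.trF t

theorem Tr.tm {t : ZFSet.{u}} (h : Tr t) : Tm Set.univ On (fun _ => t) := by
  induction h with
  | leaf h => exact Tm.ofOrd h
  | node _ _ ih1 ih2 => infer_instance

theorem od_iff_tree {y : ZFSet.{u}} :
    OD Set.univ y ↔ ∃ t, trF t = {∅} ∧ ev Set.univ t = y := by
  simp only [trF_iff]
  refine ⟨fun h => h.exists_tree, ?_⟩
  rintro ⟨t, ht, rfl⟩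
  have := Tr.tm ht
  exact od_iff.2 inferInstance

instance Df.od (t : (ℕ → ZFSet.{u}) → ZFSet.{u}) [Tm Set.univ On t] :
    Df Set.univ On (fun v => OD Set.univ (t v)) :=
  Df.of (fun v => ∃ s, trF s = {∅} ∧ ev Set.univ s = t v) (by infer_instance)
    fun _ _ => od_iff_tree.symm

theorem hod_iff {y : ZFSet.{u}} :
    HOD Set.univ y ↔ OD Set.univ y ∧ ∀ z, z ∈ tc y → OD Set.univ z := by
  induction y using ZFSet.inductionOn with
  | _ y ih =>
    rw [HOD, hereditarily_iff]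
    refine and_congr_right fun _ => ⟨fun h z hz => ?_, fun h z hz => ?_⟩
    · rcases (mem_tcl (pred := fun x => x) mem_wf).1 hz with hz | ⟨w, hw, hz⟩
      · exact (h z hz).self
      · exact ((ih w hw).1 (h w hw)).2 z hz
    · exact (ih z hz).2 ⟨h z (subset_tc y hz), fun w hw => h w (tc_trans hw (subset_tc y hz))⟩

instance Df.hod (t : (ℕ → ZFSet.{u}) → ZFSet.{u}) [Tm Set.univ On t] :
    Df Set.univ On (fun v => HOD Set.univ (t v)) :=
  Df.of (fun v => OD Set.univ (t v) ∧ ∀ z, z ∈ tc (t v) → OD Set.univ z) (by infer_instance)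
    fun _ _ => hod_iff.symm

theorem hod_of_subset {l X : ZFSet.{u}} (hl : l.IsOrdinal) (h : X ⊆ l) (h' : OD Set.univ X) :
    HOD Set.univ X :=
  hereditarily_iff.2 ⟨h', fun _ hx => hod_ord (hl.mem (h hx))⟩

theorem hod_gr' {a : ZFSet.{u}} (ha : a.IsOrdinal) (F : ZFSet.{u} → ZFSet.{u})
    [hF : Tm Set.univ On (fun v => F (v 0))] (h : ∀ i ∈ a, HOD Set.univ (F i)) :
    HOD Set.univ (gr F a) := by
  have : Tm Set.univ On (fun _ => a) := Tm.ofOrd ha
  refine hereditarily_iff.2 ⟨od_iff.2 (Tm.gr (fun _ => a) (fun _ => F) (h := hF)),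
    fun z hz => ?_⟩
  obtain ⟨i, hi, rfl⟩ := mem_img.1 hz
  have h1 : HOD Set.univ i := hod_ord (ha.mem hi)
  have h3 := hod_upair h1 h1
  rw [pair_eq_singleton] at h3
  exact hod_upair h3 (hod_upair h1 (h i hi))

instance Df.normalMeasure (s t : (ℕ → ZFSet.{u}) → ZFSet.{u}) [Tm Set.univ On s]
    [Tm Set.univ On t] : Df Set.univ On (fun v => NormalMeasure (s v) (t v)) := by
  have h1 : Df Set.univ On (fun v => ∀ X, X ∈ t v → ∀ Y, HOD Set.univ Y → X ⊆ Y → Y ⊆ s v →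
    Y ∈ t v) := inferInstance
  have h2 : Df Set.univ On (fun v => ∀ X, HOD Set.univ X → X ⊆ s v →
    (X ∈ t v ↔ s v \ X ∉ t v)) := inferInstance
  have h3 : Df Set.univ On (fun v => ∀ x, ({x} : ZFSet.{u}) ∉ t v) := inferInstance
  have h4 : Df Set.univ On (fun v => ∀ a, a ∈ s v → ∀ f, HOD Set.univ f → IsFunc a (t v) f →
    ((s v).sep fun x => ∀ i X, pair i X ∈ f → x ∈ X) ∈ t v) := inferInstance
  have h5 : Df Set.univ On (fun v => ∀ f, HOD Set.univ f → IsFunc (s v) (s v) f →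
    ((s v).sep fun x => ∃ y, y ∈ x ∧ pair x y ∈ f) ∈ t v →
    ∃ y, ((s v).sep fun x => pair x y ∈ f) ∈ t v) := inferInstance
  have h6 : Df Set.univ On (fun v => (s v).IsOrdinal ∧ om ∈ s v ∧ HOD Set.univ (t v) ∧
    ∀ X, X ∈ t v → X ⊆ s v) := inferInstance
  exact Df.of _ (Df.and _ _ (h1 := h6) (h2 := Df.and _ _ (h1 := h1) (h2 := Df.and _ _ (h1 := h2)
    (h2 := Df.and _ _ (h1 := h3) (h2 := Df.and _ _ (h1 := h4) (h2 := h5)))))) fun _ _ =>
    ⟨fun ⟨⟨a, b, c, d⟩, e, f, g, h, i⟩ => ⟨a, b, c, d, e, f, g, h, i⟩,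
      fun h => ⟨⟨h.1, h.2, h.3, h.4⟩, h.5, h.6, h.7, h.8, h.9⟩⟩

end Pool.Agent.MP_ecfd11_lc.H20
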