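import Pool.Agent.MP_ecfd11_lc.H20.Hod

/-!
The nonstationary ideal at points of uncountable cofinality.
-/

set_option synthInstance.maxSize 4000

namespace Pool.Agent.MP_ecfd11_lc.H20

universe u

open ZFSet Function Classical Cardinal

/-- `X` is disjoint from a club of `b`. -/
def Null (b X : ZFSet.{u}) : Prop := ∃ c, Club b c ∧ ∀ x, x ∈ X → x ∉ c

/-- `b` has uncountable cofinality. -/
def Unc (b : ZFSet.{u}) : Prop :=
  b.IsOrdinal ∧ ∀ y, y ⊆ b → card y ≤ card om → ∃ c, c ∈ b ∧ ∀ z, z ∈ y → z ∈ c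

/-- `b` has a cofinal subset of size less than `d`. -/
def Sm (d b : ZFSet.{u}) : Prop :=
  ∃ y, y ⊆ b ∧ ¬ card d ≤ card y ∧ ∀ x, x ∈ b → ∃ z, z ∈ y ∧ x ∈ z

instance Df.null (s t : (ℕ → ZFSet.{u}) → ZFSet.{u}) [Tm Set.univ On s] [Tm Set.univ On t] :
    Df Set.univ On (fun v => Null (s v) (t v)) := by unfold Null; infer_instance

instance Df.unc (t : (ℕ → ZFSet.{u}) → ZFSet.{u}) [Tm Set.univ On t] :
    Df Set.univ On (fun v => Unc (t v)) := by unfold Unc; infer_instance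

instance Df.sm (s t : (ℕ → ZFSet.{u}) → ZFSet.{u}) [Tm Set.univ On s] [Tm Set.univ On t] :
    Df Set.univ On (fun v => Sm (s v) (t v)) := by unfold Sm; infer_instance

variable {b l X Y : ZFSet.{u}}

theorem stat_iff : Stat Set.univ b X ↔ X ⊆ b ∧ ¬ Null b X := by
  refine and_congr_right fun _ => ?_
  simp only [Null, not_exists, not_and, not_forall, not_not, Set.mem_univ, true_imp_iff,
    exists_prop]

theorem Null.mono (h : Null b Y) (h' : ∀ x ∈ X, x ∈ b → x ∈ Y) : Null b X := by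
  obtain ⟨c, h1, h2⟩ := h
  exact ⟨c, h1, fun x hx hc => h2 x (h' x hx (h1.1 hc)) hc⟩

theorem Unc.succ (h : Unc b) {x : ZFSet.{u}} (hx : x ∈ b) : ∃ c ∈ b, x ∈ c := by
  obtain ⟨c, h1, h2⟩ := h.2 {x} (fun z hz => by rw [mem_singleton.1 hz]; exact hx)
    (by rw [card_singleton, card_om]; exact one_le_aleph0)
  exact ⟨c, h1, h2 x (mem_singleton.2 rfl)⟩

theorem Unc.succ_mem (h : Unc b) {x : ZFSet.{u}} (hx : x ∈ b) : insert x x ∈ b := by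
  obtain ⟨c, hc, h1⟩ := h.succ hx
  refine (isOrdinal_succ (h.1.mem hx)).mem_of_subset_of_mem h.1 (fun y hy => ?_) hc
  rcases mem_insert_iff.1 hy with rfl | hy
  exacts [h1, (h.1.mem hc).mem_trans hy h1]

theorem Unc.omega_mem (h : Unc b) : om ∈ b := by
  by_contra h1
  rw [(isOrdinal_toZFSet _).notMem_iff_subset h.1] at h1
  obtain ⟨c, h2, h3⟩ := h.2 b subset_rfl (card_mono h1)
  exact mem_irrefl c (h3 c h2)

theorem Unc.empty_mem (h : Unc b) : ∅ ∈ b := h.1.mem_trans empty_mem_om h.omega_mem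

theorem unc_of_regular (hl : Regular Set.univ l) : Unc l :=
  ⟨hl.1, fun y h1 h2 => hl.bddV (h2.trans_lt (hl.card_lt hl.2.1)) (fun x => x) h1⟩

theorem Unc.exists_closed (h : Unc b) (N : ZFSet.{u} → ZFSet.{u})
    (hN : ∀ x ∈ b, N x ∈ b ∧ x ∈ N x) {x0 : ZFSet.{u}} (hx : x0 ∈ b) :
    ∃ g ∈ b, x0 ∈ g ∧ ∀ x ∈ g, ∃ y ∈ g, x ∈ y ∧ N y ∈ g := by
  have h2 : ∀ n : ℕ, N^[n] x0 ∈ b := fun n => by
    induction n with
    | zero => exact hx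
    | succ n ih => rw [iterate_succ_apply']; exact (hN _ ih).1
  let Z : ZFSet.{u} := range fun n : ULift.{u} ℕ => N^[n.down] x0
  have hZ : card Z ≤ card om := by
    rw [card_om]
    simpa using lift_card_range_le (f := fun n : ULift.{u} ℕ => N^[n.down] x0)
  have hZb : ∀ x ∈ Z, x ∈ b := fun x hx => by
    obtain ⟨n, rfl⟩ := mem_range.1 hx; exact h2 _
  obtain ⟨c, hc, h3⟩ := h.2 Z hZb hZ
  have ho : (⋃₀ Z : ZFSet.{u}).IsOrdinal := isOrdinal_sUnion fun y hy => h.1.mem (hZb y hy)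
  have h4 : ∀ n : ℕ, N^[n] x0 ∈ (⋃₀ Z : ZFSet.{u}) := fun n =>
    mem_sUnion.2 ⟨_, mem_range.2 ⟨⟨n + 1⟩, rfl⟩, by
      rw [iterate_succ_apply']; exact (hN _ (h2 n)).2⟩
  refine ⟨⋃₀ Z, ho.mem_of_subset_of_mem h.1 (fun z hz => ?_) hc, h4 0, fun x hx => ?_⟩
  · obtain ⟨y, hy, hz⟩ := mem_sUnion.1 hz
    exact (h.1.mem hc).mem_trans hz (h3 y hy)
  · obtain ⟨y, hy, hx⟩ := mem_sUnion.1 hx
    obtain ⟨n, rfl⟩ := mem_range.1 hy
    exact ⟨_, h4 _, hx, by have := h4 (n.down + 1); rwa [iterate_succ_apply'] at this⟩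

theorem Unc.club_inter (h : Unc b) {c c' : ZFSet.{u}} (h1 : Club b c) (h2 : Club b c') :
    Club b (c ∩ c') := by
  refine ⟨fun x hx => h1.1 (mem_inter.1 hx).1, fun x hx => ?_, fun g hg hne h3 =>
    mem_inter.2 ⟨h1.2.2 g hg hne fun x hx => ?_, h2.2.2 g hg hne fun x hx => ?_⟩⟩
  · choose! F f1 f2 using h1.2.1
    choose! G g1 g2 using h2.2.1
    obtain ⟨g, hg, h3, h4⟩ := h.exists_closed (fun x => G (F x)) (fun x hx =>
      ⟨h2.1 (g1 _ (h1.1 (f1 x hx))), (h.1.mem (h2.1 (g1 _ (h1.1 (f1 x hx))))).mem_trans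
        (f2 x hx) (g2 _ (h1.1 (f1 x hx)))⟩) hx
    have hgo := h.1.mem hg
    refine ⟨g, mem_inter.2 ⟨h1.2.2 g hg ⟨x, h3⟩ fun z hz => ?_,
      h2.2.2 g hg ⟨x, h3⟩ fun z hz => ?_⟩, h3⟩ <;> obtain ⟨y, hy, h5, h6⟩ := h4 z hz <;>
      have hyb := h.1.mem_trans hy hg
    · exact ⟨F y, f1 y hyb, (h.1.mem (h1.1 (f1 y hyb))).mem_trans h5 (f2 y hyb),
        hgo.mem_trans (g2 _ (h1.1 (f1 y hyb))) h6⟩
    · exact ⟨G (F y), g1 _ (h1.1 (f1 y hyb)), (hgo.mem h6).mem_trans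
        ((h.1.mem (h1.1 (f1 y hyb))).mem_trans h5 (f2 y hyb)) (g2 _ (h1.1 (f1 y hyb))), h6⟩
  · obtain ⟨y, hy, h4⟩ := h3 x hx
    exact ⟨y, (mem_inter.1 hy).1, h4⟩
  · obtain ⟨y, hy, h4⟩ := h3 x hx
    exact ⟨y, (mem_inter.1 hy).2, h4⟩

theorem Unc.null_union (h : Unc b) (h1 : Null b X) (h2 : Null b Y) : Null b (X ∪ Y) := by
  obtain ⟨c, c1, c2⟩ := h1
  obtain ⟨e, e1, e2⟩ := h2
  exact ⟨_, h.club_inter c1 e1, fun x hx hc => (mem_union.1 hx).elim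
    (fun hx => c2 x hx (mem_inter.1 hc).1) fun hx => e2 x hx (mem_inter.1 hc).2⟩

theorem Unc.null_bdd (h : Unc b) {x : ZFSet.{u}} (hx : x ∈ b) : Null b (insert x x) := by
  refine ⟨b.sep fun y => x ∈ y, ⟨sep_subset, fun a ha => ?_, fun g hg ⟨a, ha⟩ h3 => ?_⟩,
    fun y hy h3 => ?_⟩
  · obtain ⟨c, hc, h1, h2⟩ := exists_bound2 h.1 (h.succ_mem ha) (h.succ_mem hx)
    exact ⟨c, mem_sep.2 ⟨hc, h2 (mem_insert _ _)⟩, h1 (mem_insert _ _)⟩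
  · obtain ⟨y, hy, -, h2⟩ := h3 a ha
    exact mem_sep.2 ⟨hg, (h.1.mem hg).mem_trans (mem_sep.1 hy).2 h2⟩
  · rcases mem_insert_iff.1 hy with rfl | hy
    exacts [mem_irrefl _ (mem_sep.1 h3).2, mem_asymm hy (mem_sep.1 h3).2]

theorem Unc.null_empty (h : Unc b) : Null b ∅ :=
  (h.null_bdd h.empty_mem).mono fun x hx _ => absurd hx (notMem_empty x)

/-- The limit points of `c` below `l`. -/
noncomputable def lim (l c : ZFSet.{u}) : ZFSet.{u} :=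
  l.sep fun g => (∃ x, x ∈ g) ∧ ∀ x ∈ g, ∃ y ∈ c, x ∈ y ∧ y ∈ g

theorem club_lim (hl : Regular Set.univ l) {c : ZFSet.{u}} (hc : Club l c) :
    Club l (lim l c) := by
  have := hl.club_lim (x := {∅}) (by
    rw [card_singleton]; exact one_lt_aleph0.trans hl.aleph0_lt) (fun _ => c) fun _ _ x hx => by
      obtain ⟨y, h1, h2⟩ := hc.2.1 x hx
      exact ⟨y, h1, hc.1 h1, h2⟩
  simpa [lim] using this

theorem club_inter_lim (hl : l.IsOrdinal) {c g : ZFSet.{u}} (hc : Club l c) (hg : g ∈ lim l c) :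
    Club g (c ∩ g) := by
  obtain ⟨h1, -, h2⟩ := mem_sep.1 hg
  refine ⟨fun x hx => (mem_inter.1 hx).2, fun x hx => ?_, fun e he hne h3 =>
    mem_inter.2 ⟨hc.2.2 e (hl.mem_trans he h1) hne fun x hx => ?_, he⟩⟩
  · obtain ⟨y, y1, y2, y3⟩ := h2 x hx
    exact ⟨y, mem_inter.2 ⟨y1, y3⟩, y2⟩
  · obtain ⟨y, y1, y2⟩ := h3 x hx
    exact ⟨y, (mem_inter.1 y1).1, y2⟩

/-- A nonstationary set is nonstationary at almost every point. -/
theorem Null.reflect (hl : Regular Set.univ l) (h : Null l X) :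
    Null l (l.sep fun g => ¬ Null g X) := by
  obtain ⟨c, h1, h2⟩ := h
  exact ⟨_, club_lim hl h1, fun g hg h3 => (mem_sep.1 hg).2
    ⟨_, club_inter_lim hl.1 h1 h3, fun x hx h4 => h2 x hx (mem_inter.1 h4).1⟩⟩

theorem null_iUnion (hl : Regular Set.univ l) {x S : ZFSet.{u}} (hx : card x < card l)
    (T : ZFSet.{u} → ZFSet.{u}) (h1 : ∀ i ∈ x, Null l (T i))
    (h2 : ∀ y ∈ S, y ∈ l → ∃ i ∈ x, y ∈ T i) : Null l S := by
  by_contra h
  obtain ⟨i, hi, h3⟩ := hl.stat_union (S := S ∩ l) hx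
    (stat_iff.2 ⟨fun y hy => (mem_inter.1 hy).2, fun h' => h (h'.mono fun y hy hy' =>
      mem_inter.2 ⟨hy, hy'⟩)⟩) (fun i => T i ∩ l) (fun _ _ y hy => (mem_inter.1 hy).2)
    fun y hy => by
      obtain ⟨i, hi, h3⟩ := h2 y (mem_inter.1 hy).1 (mem_inter.1 hy).2
      exact ⟨i, hi, mem_inter.2 ⟨h3, (mem_inter.1 hy).2⟩⟩
  exact (stat_iff.1 h3).2 ((h1 i hi).mono fun y hy _ => (mem_inter.1 hy).1)

theorem fodor (hl : Regular Set.univ l) {S : ZFSet.{u}} (hS : ¬ Null l S)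
    (F : ZFSet.{u} → ZFSet.{u}) (hF : ∀ x ∈ S, x ∈ l → x ≠ ∅ → F x ∈ x) :
    ∃ g ∈ l, ¬ Null l (S.sep fun x => F x = g) := by
  have hu := unc_of_regular hl
  obtain ⟨g, hg, h⟩ := hl.fodor (S := S.sep fun x => x ∈ l ∧ x ≠ ∅) (stat_iff.2
    ⟨fun x hx => (mem_sep.1 hx).2.1, fun h => hS ((hu.null_union h (hu.null_bdd
      hu.empty_mem)).mono fun x hx hx' => by
        by_cases e : x = ∅
        · exact mem_union.2 (Or.inr (e ▸ mem_insert _ _))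
        · exact mem_union.2 (Or.inl (mem_sep.2 ⟨hx, hx', e⟩)))⟩) F
    fun x hx => hF x (mem_sep.1 hx).1 (mem_sep.1 hx).2.1 (mem_sep.1 hx).2.2
  exact ⟨g, hg, fun h' => (stat_iff.1 h).2 (h'.mono fun x hx _ =>
    mem_sep.2 ⟨(mem_sep.1 (mem_sep.1 hx).1).1, (mem_sep.1 hx).2⟩)⟩

theorem Sm.exists_club {d : ZFSet.{u}} (hd : Regular Set.univ d) (ha : b.IsOrdinal)
    (h : Sm d b) : ∃ c, Club b c ∧ card c < card d := by
  obtain ⟨X, x1, x3, x2⟩ := h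
  rw [not_le] at x3
  refine ⟨X ∪ b.sep fun g => ∀ x ∈ g, ∃ y ∈ X, x ∈ y ∧ y ∈ g, ⟨fun x hx => ?_, fun b hb => ?_,
    fun g hg _ h => mem_union.2 (Or.inr (mem_sep.2 ⟨hg, fun b hb => ?_⟩))⟩, ?_⟩
  · exact (mem_union.1 hx).elim (fun h => x1 h) fun h => (mem_sep.1 h).1
  · obtain ⟨x, h1, h2⟩ := x2 b hb
    exact ⟨x, mem_union.2 (Or.inl h1), h2⟩
  · obtain ⟨x, h1, h2, h3⟩ := h b hb
    rcases mem_union.1 h1 with h1 | h1
    · exact ⟨x, h1, h2, h3⟩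
    · obtain ⟨y, h4, h5, h6⟩ := (mem_sep.1 h1).2 b h2
      exact ⟨y, h4, h5, (ha.mem hg).mem_trans h6 h3⟩
  · refine card_union_le.trans_lt (add_lt_of_lt hd.aleph0_lt.le x3 (lt_of_le_of_lt ?_ x3))
    have h1 : ∀ g ∈ b, ∃ x, x ∈ X ∧ g ⊆ x := fun g hg => by
      obtain ⟨x, h1, h2⟩ := x2 g hg
      exact ⟨x, h1, (ha.mem (x1 h1)).subset_of_mem h2⟩
    choose! Z0 z0 using h1
    choose! Z z1 z2 using fun g (hg : g ∈ b) =>
      exists_min_mem (p := fun x => x ∈ X ∧ g ⊆ x) (z0 g hg)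
    have h2 : ∀ g ∈ b, ∀ g' ∈ b, (∀ x ∈ g', ∃ y ∈ X, x ∈ y ∧ y ∈ g') → Z g = Z g' → g ∉ g' :=
      fun g hg g' hg' h e hgg => by
        obtain ⟨x, h3, h4, h5⟩ := h g hgg
        exact z2 g hg x (e ▸ (z1 g' hg').2 h5) ⟨h3, (ha.mem (x1 h3)).subset_of_mem h4⟩
    refine card_le_of_inj Z (fun g hg => (z1 g (mem_sep.1 hg).1).1) fun g hg g' hg' e => ?_
    obtain ⟨g1, g2⟩ := mem_sep.1 hg
    obtain ⟨g3, g4⟩ := mem_sep.1 hg'
    rcases (ha.mem g1).mem_trichotomous (ha.mem g3) with h3 | h3 | h3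
    exacts [absurd h3 (h2 g g1 g' g3 g4 e), h3, absurd h3 (h2 g' g3 g g1 g2 e.symm)]

end Pool.Agent.MP_ecfd11_lc.H20
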